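import Pool.Agent.helper69.SN.SpecA
import Pool.Agent.helper90.SC.LA

/-! Row sn:aDER: derivatives of `dPh`. -/

open scoped Pointwise ContDiff
open MeasureTheory Set Filter Topology

set_option linter.unusedVariables false

namespace Pool.Agent.helper69.SN

open Pool.Agent.helper83.SC

/-- The mixed discriminant as a continuous multilinear map. -/
noncomputable def aDER_cm (m : ℕ) :
    ContinuousMultilinearMap ℝ (fun _ : Fin m => (Fin m → Fin m → ℝ)) ℝ where
  toFun M := mD (m := m) M
  map_update_add' := by
    intro inst M i x y
    have : inst = instDecidableEqFin m := Subsingleton.elim _ _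
    subst this
    exact mD_update_add (m := m) M i x y
  map_update_smul' := by
    intro inst M i c x
    have : inst = instDecidableEqFin m := Subsingleton.elim _ _
    subst this
    exact mD_update_smul (m := m) M i c x
  cont := by
    show Continuous (fun M : Fin m → (Fin m → Fin m → ℝ) => mD (m := m) M)
    unfold mD
    refine continuous_const.mul ?_
    refine continuous_finsetSum _ fun σ _ => ?_
    refine Continuous.matrix_det ?_
    refine continuous_matrix fun i j => ?_
    show Continuous (fun M : Fin m → (Fin m → Fin m → ℝ) => M (σ i) i j)
    fun_prop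

theorem aDER_line {m : ℕ} (C V : Fin m → Mat m) (s : ℝ) :
    HasDerivAt (fun s : ℝ => mD (fun j => C j + s • V j))
      (∑ j, mD (Function.update (fun j => C j + s • V j) j (V j))) s := by
  have h1 : HasDerivAt (fun s : ℝ => (fun j a b => C j a b + s * V j a b :
      Fin m → (Fin m → Fin m → ℝ))) (fun j a b => V j a b : Fin m → (Fin m → Fin m → ℝ)) s := by
    refine hasDerivAt_pi.2 fun j => ?_
    refine hasDerivAt_pi.2 fun a => ?_
    refine hasDerivAt_pi.2 fun b => ?_
    simpa using ((hasDerivAt_id s).mul_const (V j a b)).const_add (C j a b)
  have h2 := ((aDER_cm m).hasFDerivAt (x := (fun j a b => C j a b + s * V j a b :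
    Fin m → (Fin m → Fin m → ℝ)))).comp_hasDerivAt s h1
  rw [ContinuousMultilinearMap.linearDeriv_apply] at h2
  exact h2

theorem aDER_swap {m : ℕ} (M : Fin m → Mat m) (i j : Fin m) (A X : Mat m) (hi : M i = X)
    (hj : M j = X) : mD (Function.update M i A) = mD (Function.update M j A) := by
  rw [← mD_perm (Function.update M j A) (Equiv.swap i j)]
  congr 1
  funext k
  by_cases hki : k = i
  · subst hki
    simp
  · by_cases hkj : k = j
    · subst hkj
      rw [Function.update_of_ne hki, Equiv.swap_apply_right]
      by_cases h : i = k
      · exact absurd h.symm hki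
      · rw [Function.update_of_ne h, hi, hj]
    · rw [Function.update_of_ne hki, Equiv.swap_apply_of_ne_of_ne hki hkj,
        Function.update_of_ne hkj]

theorem aDER_term {m n : ℕ} (B : Fin n → Mat m) (T : Finset (Fin n)) (A M : Mat m) (r : ℕ)
    (s : ℝ) :
    HasDerivAt (fun s : ℝ => (m.descFactorial (T.card + r) : ℝ) *
        mD (slotA B T r A (M + s • A)))
      ((m.descFactorial (T.card + (r + 1)) : ℝ) * mD (slotA B T (r + 1) A (M + s • A))) s := by
  set C : Fin m → Mat m := fun j => if h : (j : ℕ) < T.card then B (T.orderEmbOfFin rfl ⟨j, h⟩)
    else if (j : ℕ) < T.card + r then A else M with hC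
  set V : Fin m → Mat m := fun j => if (j : ℕ) < T.card + r then 0 else A with hV
  have hCV : ∀ s : ℝ, (fun j => C j + s • V j) = slotA B T r A (M + s • A) := by
    intro s
    funext j
    simp only [hC, hV, slotA]
    by_cases h1 : (j : ℕ) < T.card
    · have h2 : (j : ℕ) < T.card + r := by omega
      simp [h1, h2]
    · by_cases h2 : (j : ℕ) < T.card + r
      · simp [h1, h2]
      · simp [h1, h2]
  have hd := aDER_line C V s
  simp only [hCV] at hd
  have hsum : (∑ j, mD (Function.update (slotA B T r A (M + s • A)) j (V j)))
      = ((m - (T.card + r) : ℕ) : ℝ) * mD (slotA B T (r + 1) A (M + s • A)) := by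
    by_cases hm : T.card + r < m
    · have hj0 : ∀ j : Fin m, mD (Function.update (slotA B T r A (M + s • A)) j (V j))
          = if (j : ℕ) < T.card + r then 0 else mD (slotA B T (r + 1) A (M + s • A)) := by
        intro j
        by_cases h2 : (j : ℕ) < T.card + r
        · rw [if_pos h2]
          have : V j = (0 : ℝ) • (0 : Mat m) := by simp [hV, h2]
          rw [this, mD_update_smul, zero_mul]
        · rw [if_neg h2]
          have hVj : V j = A := by simp [hV, h2]
          rw [hVj]
          have hk : slotA B T (r + 1) A (M + s • A)
              = Function.update (slotA B T r A (M + s • A)) ⟨T.card + r, hm⟩ A := by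
            funext k
            by_cases hk : k = ⟨T.card + r, hm⟩
            · subst hk
              simp [slotA]
            · rw [Function.update_of_ne hk]
              have hk' : (k : ℕ) ≠ T.card + r := fun h => hk (Fin.ext h)
              simp only [slotA]
              by_cases h1 : (k : ℕ) < T.card
              · simp [h1]
              · by_cases h3 : (k : ℕ) < T.card + r
                · have h4 : (k : ℕ) < T.card + (r + 1) := by omega
                  simp [h1, h3, h4]
                · have h4 : ¬ (k : ℕ) < T.card + (r + 1) := by omega
                  simp [h1, h3, h4]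
          rw [hk]
          refine aDER_swap _ _ _ A (M + s • A) ?_ ?_
          · have h1 : ¬ (j : ℕ) < T.card := by omega
            simp [slotA, h1, h2]
          · simp [slotA]
      simp only [hj0]
      rw [Finset.sum_ite, Finset.sum_const_zero, zero_add, Finset.sum_const, nsmul_eq_mul]
      congr 2
      have : (Finset.univ.filter fun j : Fin m => ¬ (j : ℕ) < T.card + r)
          = (Finset.univ.filter fun j : Fin m => (j : ℕ) < T.card + r)ᶜ := by
        ext j
        simp
      rw [this, Finset.card_compl, Fintype.card_fin]
      congr 1
      have h5 : (Finset.univ.filter fun j : Fin m => (j : ℕ) < T.card + r)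
          = Finset.Iio (⟨T.card + r, hm⟩ : Fin m) := by
        ext j
        simp [Fin.lt_def]
      rw [h5, Fin.card_Iio]
    · have h0 : m - (T.card + r) = 0 := by omega
      rw [h0, Nat.cast_zero, zero_mul]
      refine Finset.sum_eq_zero fun j _ => ?_
      have h2 : (j : ℕ) < T.card + r := by have := j.2; omega
      have : V j = (0 : ℝ) • (0 : Mat m) := by simp [hV, h2]
      rw [this, mD_update_smul, zero_mul]
  rw [hsum] at hd
  have h6 := hd.const_mul (m.descFactorial (T.card + r) : ℝ)
  have h7 : ((m.descFactorial (T.card + (r + 1)) : ℕ) : ℝ)
      = (m.descFactorial (T.card + r) : ℝ) * ((m - (T.card + r) : ℕ) : ℝ) := by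
    rw [← Nat.cast_mul, ← add_assoc, Nat.descFactorial_succ, mul_comm]
  rw [h7, mul_assoc]
  exact h6

theorem aDER_of : aDER_stmt := by
  intro m n B A M r s
  constructor
  · have := HasDerivAt.fun_sum (u := (Finset.univ : Finset (Finset (Fin n))))
      (fun T _ => aDER_term B T A M r s)
    exact this
  · unfold dPh Ph
    refine Finset.sum_congr rfl fun T _ => ?_
    have : slotA B T 0 A M = slot B T M := by
      funext j
      simp only [slotA, slot, add_zero]
      by_cases h : (j : ℕ) < T.card
      · simp [h]
      · simp [h]
    rw [this, add_zero]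

end Pool.Agent.helper69.SN
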