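import Pool.Agent.helper28.SN.SpecC

/-! Row sn:cRMX: elementary properties of the regularized maximum. -/

set_option autoImplicit false

open scoped Pointwise ContDiff
open MeasureTheory Set Filter Topology Pool.Agent.helper83.SC Pool.Agent.helper69.SN

set_option linter.unusedVariables false

namespace Pool.Agent.helper28.SN

theorem cRMX_pdS {m : ℕ} (i : Fin m) {f : E m → ℝ} (hf : ContDiff ℝ ∞ f) :
    ContDiff ℝ ∞ (pd i f) := by
  have h1 : ContDiff ℝ ∞ (fderiv ℝ f) := hf.fderiv_right (m := ∞) (by norm_cast)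
  exact h1.clm_apply contDiff_const

theorem cRMX_w {m : ℕ} (s : ℝ) {u v : E m → ℝ} (hu : ContDiff ℝ ∞ u) (hv : ContDiff ℝ ∞ v)
    (y : E m) : HasFDerivAt (fun x => (u x - v x) / s)
      (s⁻¹ • (fderiv ℝ u y - fderiv ℝ v y)) y := by
  have h1 : HasFDerivAt u (fderiv ℝ u y) y := (hu.differentiable (by norm_num)).differentiableAt.hasFDerivAt
  have h2 : HasFDerivAt v (fderiv ℝ v y) y := (hv.differentiable (by norm_num)).differentiableAt.hasFDerivAt
  have h3 := (h1.sub h2).mul_const s⁻¹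
  simpa [div_eq_mul_inv] using h3

theorem cRMX_comp {m : ℕ} {θ : ℝ → ℝ} (hθ : ContDiff ℝ ∞ θ) (s : ℝ) {u v : E m → ℝ}
    (hu : ContDiff ℝ ∞ u) (hv : ContDiff ℝ ∞ v) (y : E m) :
    HasFDerivAt (fun x => θ ((u x - v x) / s))
      (deriv θ ((u y - v y) / s) • (s⁻¹ • (fderiv ℝ u y - fderiv ℝ v y))) y := by
  have h1 : HasDerivAt θ (deriv θ ((u y - v y) / s)) ((u y - v y) / s) :=
    (hθ.differentiable (by norm_num)).differentiableAt.hasDerivAt
  exact h1.comp_hasFDerivAt y (cRMX_w s hu hv y)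

theorem cRMX_pd {m : ℕ} {θ : ℝ → ℝ} (hθ : ContDiff ℝ ∞ θ) {s : ℝ} (hs : 0 < s) {u v : E m → ℝ}
    (hu : ContDiff ℝ ∞ u) (hv : ContDiff ℝ ∞ v) (j : Fin m) :
    pd j (rmx θ s u v) = fun y => pd j v y + deriv θ ((u y - v y) / s) * (pd j u y - pd j v y) := by
  funext y
  have h2 : HasFDerivAt v (fderiv ℝ v y) y := (hv.differentiable (by norm_num)).differentiableAt.hasFDerivAt
  have h3 := h2.add ((cRMX_comp hθ s hu hv y).const_mul s)
  have h4 : fderiv ℝ (rmx θ s u v) y = fderiv ℝ v y +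
      s • (deriv θ ((u y - v y) / s) • (s⁻¹ • (fderiv ℝ u y - fderiv ℝ v y))) := h3.fderiv
  show fderiv ℝ (rmx θ s u v) y (e j) = _
  rw [h4]
  simp only [add_apply, smul_apply,
    sub_apply, smul_eq_mul, pd]
  field_simp

theorem cRMX_pd2 {m : ℕ} {θ : ℝ → ℝ} (hθ : ContDiff ℝ ∞ θ) {s : ℝ} (hs : 0 < s) {u v : E m → ℝ}
    (hu : ContDiff ℝ ∞ u) (hv : ContDiff ℝ ∞ v) (i j : Fin m) (x : E m) :
    pd i (pd j (rmx θ s u v)) x = pd i (pd j v) x +
      (deriv θ ((u x - v x) / s) * (pd i (pd j u) x - pd i (pd j v) x) +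
        (pd j u x - pd j v x) * (deriv (deriv θ) ((u x - v x) / s) *
          (s⁻¹ * (pd i u x - pd i v x)))) := by
  rw [cRMX_pd hθ hs hu hv j]
  have hd : ContDiff ℝ ∞ (deriv θ) := (contDiff_infty_iff_deriv.1 hθ).2
  have h1 : HasFDerivAt (pd j u) (fderiv ℝ (pd j u) x) x :=
    ((cRMX_pdS j hu).differentiable (by norm_num)).differentiableAt.hasFDerivAt
  have h2 : HasFDerivAt (pd j v) (fderiv ℝ (pd j v) x) x :=
    ((cRMX_pdS j hv).differentiable (by norm_num)).differentiableAt.hasFDerivAt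
  have h3 := h2.add ((cRMX_comp hd s hu hv x).mul (h1.sub h2))
  have h4 := h3.fderiv
  show fderiv ℝ (fun y => pd j v y + deriv θ ((u y - v y) / s) * (pd j u y - pd j v y)) x (e i) = _
  have h5 : fderiv ℝ (fun y => pd j v y + deriv θ ((u y - v y) / s) * (pd j u y - pd j v y)) x
      = _ := h4
  rw [h5]
  simp only [add_apply, smul_apply,
    sub_apply, smul_eq_mul, pd, Pi.sub_apply]

theorem cRMX : cRMX_stmt := by
  intro m θ s u v hθ hs hu hv
  have hkey : ∀ x : E m, s * ((u x - v x) / s) = u x - v x := fun x => by field_simp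
  refine ⟨?_, ?_, ?_, ?_, ?_⟩
  · unfold rmx
    exact hv.add (contDiff_const.mul (hθ.smooth.comp ((hu.sub hv).div_const s)))
  · intro x
    have h1 := hθ.ge ((u x - v x) / s)
    have h2 := hθ.le ((u x - v x) / s)
    have h3 : s * max ((u x - v x) / s) 0 = max (u x - v x) 0 := by
      rw [mul_max_of_nonneg _ _ hs.le, hkey, mul_zero]
    have h4 : v x + max (u x - v x) 0 = max (u x) (v x) := by
      rw [← max_add_add_left]
      ring_nf
    have h5 := mul_le_mul_of_nonneg_left h1 hs.le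
    have h6 := mul_le_mul_of_nonneg_left h2 hs.le
    rw [h3] at h5
    rw [mul_add, h3, mul_one] at h6
    unfold rmx
    constructor <;> linarith
  · intro x hx
    have h1 : (u x - v x) / s ≤ -1 := by
      rw [div_le_iff₀ hs]
      linarith
    unfold rmx
    rw [hθ.zero _ h1]
    ring
  · intro x hx
    have h1 : 1 ≤ (u x - v x) / s := by
      rw [le_div_iff₀ hs]
      linarith
    unfold rmx
    rw [hθ.self _ h1, hkey]
    ring
  · intro x
    refine ⟨deriv θ ((u x - v x) / s), hθ.d0 _, hθ.d1 _, ?_⟩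
    have h1 : hess (rmx θ s u v) x - ((1 - deriv θ ((u x - v x) / s)) • hess v x +
        deriv θ ((u x - v x) / s) • hess u x)
        = (deriv (deriv θ) ((u x - v x) / s) * s⁻¹) •
          Matrix.vecMulVec (fun i => pd i u x - pd i v x) (star fun i => pd i u x - pd i v x) := by
      ext i j
      simp only [hess, Matrix.sub_apply, Matrix.add_apply, Matrix.smul_apply, Matrix.of_apply,
        Matrix.vecMulVec_apply, smul_eq_mul, star_trivial]
      rw [cRMX_pd2 hθ.smooth hs hu hv i j x]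
      ring
    rw [h1]
    exact (Matrix.posSemidef_vecMulVec_self_star _).smul
      (mul_nonneg (hθ.d2 _) (inv_nonneg.2 hs.le))

end Pool.Agent.helper28.SN
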